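import Pool.Agent.H816R2.KM2N

/-!
A Steiner system `S(3241,9,2)`: a difference family over `ℤ_7 × ℤ_463`. With `M` a cyclic group of
multipliers of order 42, the base blocks are the images under `M / ±` of one block fixed by the subgroup
of order 7 and of six blocks fixed by the subgroup of order 3.
-/

set_option autoImplicit false

namespace Pool.Agent.TH688.T2

open Pool.Agent.H816R2.KM2

def full3241 : List (List ℕ) :=
  [[0, 1, 24, 717, 1592, 2173, 2481, 2768, 3230],
   [0, 3, 464, 2368, 2494, 2550, 2662, 2746, 2935],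
   [0, 2, 188, 202, 447, 965, 2036, 2953, 2974],
   [351, 668, 870, 1007, 1580, 1809, 2027, 2281, 2406],
   [554, 802, 839, 1123, 1293, 1800, 1892, 2130, 2559],
   [345, 614, 725, 1630, 1699, 2178, 2813, 3069, 3167],
   [1052, 1208, 1664, 2400, 2432, 2598, 2608, 2683, 2829],
   [125, 535, 626, 1265, 1455, 1831, 1941, 2504, 2717],
   [51, 377, 408, 792, 1033, 1314, 1564, 2048, 2164],
   [543, 657, 705, 712, 811, 1108, 1597, 1739, 1886],
   [35, 699, 735, 962, 1354, 1594, 2449, 2471, 2693],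
   [112, 176, 277, 436, 478, 777, 2352, 2493, 2636],
   [199, 563, 649, 881, 1190, 2043, 2175, 2303, 2989],
   [463, 490, 567, 1794, 1985, 2184, 2710, 2804, 3222],
   [185, 518, 587, 1155, 1203, 1568, 2455, 2483, 2838],
   [455, 1215, 1359, 2529, 2538, 2592, 2745, 2954, 3073],
   [314, 378, 1407, 1456, 1812, 2280, 2404, 2950, 3232],
   [49, 603, 1029, 1511, 2163, 2441, 2544, 2921, 2965],
   [272, 633, 666, 700, 805, 1003, 1579, 1736, 2350],
   [207, 1023, 1666, 1804, 2018, 2131, 2240, 2561, 2576],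
   [686, 1113, 1442, 1626, 1698, 1951, 1977, 2568, 3165],
   [77, 424, 485, 1053, 1547, 1617, 2339, 2610, 2833],
   [121, 413, 624, 637, 1349, 2191, 2299, 2503, 2848],
   [52, 219, 742, 1035, 1320, 1709, 2168, 2618, 3122],
   [7, 58, 147, 652, 709, 1180, 1887, 2010, 3087],
   [598, 845, 972, 1438, 1967, 2100, 2415, 2778, 3120],
   [238, 246, 1096, 1246, 1353, 1757, 1906, 2447, 2689],
   [98, 178, 265, 440, 787, 1085, 2058, 2203, 2637],
   [231, 562, 645, 1400, 1481, 1610, 1849, 2041, 3159],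
   [91, 194, 731, 1239, 1798, 1911, 1986, 2330, 2712],
   [387, 1201, 1254, 1372, 1607, 2226, 2451, 2837, 2884],
   [134, 146, 164, 319, 825, 999, 1431, 2795, 2945],
   [32, 452, 517, 589, 1013, 1725, 2627, 2927, 3110],
   [975, 991, 1282, 1391, 1525, 1924, 2236, 2735, 3181],
   [213, 547, 956, 1175, 1745, 1867, 1962, 2255, 2272],
   [398, 674, 1102, 1152, 1382, 1422, 1755, 2077, 3037],
   [661, 860, 926, 1734, 1822, 2094, 2360, 2573, 3203],
   [144, 163, 370, 1167, 1515, 1718, 2392, 2589, 2941],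
   [142, 162, 173, 290, 1348, 2297, 2792, 2844, 2944],
   [220, 454, 1322, 1713, 1789, 1835, 2865, 2931, 3111],
   [38, 281, 326, 741, 1521, 2234, 2476, 2641, 2734],
   [114, 778, 899, 1963, 2259, 2274, 2356, 2617, 2980],
   [1193, 1229, 1380, 2076, 2221, 2309, 2994, 3033, 3039],
   [491, 569, 684, 1273, 1298, 1823, 2098, 2188, 2575],
   [524, 905, 1160, 1513, 1571, 2391, 2585, 2762, 2822]]

theorem ex3241 : ∃ 𝓑 : Set (Finset (Fin 3241)), IsS2 (Fin 3241) 9 𝓑 :=
  of_coded (codedP 7 (codedZ 463)) 9 1 0 3241 rfl full3241 []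
    (by decide +kernel) (by decide +kernel) (by decide +kernel) (by decide +kernel)
    (by decide +kernel) (by decide +kernel)

end Pool.Agent.TH688.T2
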