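import Pool.Agent.H816R2.KM2N

/-!
A Steiner system `S(337,8,2)`: a cyclic difference family over `ℤ_337` whose six base blocks are
the products of two blocks with the three cube roots of unity `1, 128, 208`.
-/

set_option autoImplicit false

namespace Pool.Agent.TH688.T2

open Pool.Agent.H816R2.KM2

def full337 : List (List ℕ) :=
  [[0, 1, 54, 74, 86, 176, 218, 256],
   [0, 36, 79, 128, 172, 224, 270, 286],
   [0, 2, 27, 111, 186, 208, 212, 227],
   [0, 10, 88, 118, 187, 242, 287, 308],
   [0, 3, 9, 143, 269, 276, 309, 332],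
   [0, 34, 47, 58, 106, 123, 141, 280]]

theorem ex337 : ∃ 𝓑 : Set (Finset (Fin 337)), IsS2 (Fin 337) 8 𝓑 :=
  of_coded (codedZ 337) 8 1 0 337 rfl full337 []
    (by decide +kernel) (by decide +kernel) (by decide +kernel) (by decide +kernel)
    (by decide +kernel) (by decide +kernel)

end Pool.Agent.TH688.T2
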